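import Pool.Agent.Helper928.Nuc.Main7
import Pool.Agent.Helper928.Nuc.Reduce
import Pool.Agent.Helper928.NucCert.Super
set_option autoImplicit false

/-!
The ideal generated by the commutators with the nucleus is not contained in the nucleus of the free
alternative ring on ten or more generators.

Proof outline. Put `N6(x,y) = 3[[x,y],Q] + 8[x,T]∘[x,y] + 8[y,T]∘(x∘x)` with `Q = (x∘x)∘(x∘x)`, `T = (x,x,x)`, for an
odd `x` and an even `y` of a super-alternative ring (here `[x,T]` and `x∘x` are the super versions). A certificate
(in multiplication operators, checked by the kernel) shows that `373248 (N6(x,y),z,z) = 0` for all odd `z`; tensoring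
with an exterior algebra, the multilinear polynomial `nf(x1,...,x5;y)` obtained from `N6` is nuclear in every
alternative ring up to the factor `2^10 3^6`. For a nuclear `n`, `[n,t]` is nuclear as well, hence
`([n,t]p,q,r) = [n,t](p,q,r)`. This is nonzero in the free alternative ring, since it is nonzero in the Grassmann envelope
of an explicit alternative superalgebra of dimension 138 over the field of seven elements.
-/

namespace Pool.Agent.Results.MP_4b3fad_al.NotInNucleus
open Pool.Agent.Helper928.Nuc.Free

theorem result (X : Type) (hX : Nonempty (Fin 10 ↪ X)) :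
    ¬ ZN ℤ (FreeAlt ℤ X) ≤ nucleus ℤ (FreeAlt ℤ X) := by
  obtain ⟨ι⟩ := hX
  intro hle
  obtain ⟨z, hz, hz2⟩ := Pool.Agent.Helper928.Nuc.Main7.main (2 * 373248) (by norm_num)
    (fun A _ hA x y r s => Pool.Agent.Helper928.Nuc.Reduce.nuc_of_cert 373248
      (fun R _ P hP x hx y hy z hz => Pool.Agent.Helper928.NucCert.nuc_super hP hx hz hy) A hA x y r s)
    ℤ (Int.castRingHom (ZMod 7)) X ι
  exact hz2 (Submodule.smul_mem _ (2 : ℤ) (hle hz))

end Pool.Agent.Results.MP_4b3fad_al.NotInNucleus
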